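import Pool.Agent.H512.CY.Fin

/-!
# Cyclic extensions of quadratic fields: `μ = 0` for a positive proportion of the primes

Let `k` be a quadratic field (for instance imaginary quadratic) and `K / k` a finite abelian extension; all fields are
subfields of `ℂ`. Let `A` be a field with `k ⊆ A ⊆ K` which is Galois (for instance abelian) over `ℚ`, such that
`K / A` is cyclic of degree `n`. For a prime `p` consider the statement `Good p A K`:

* for all layers `E` of the cyclotomic `ℤ_p`-extension of `ℚ` the `p`-parts of the class groups of `K E` and `A E` are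
  isomorphic, and so are the `p`-parts of the class groups modulo the classes of the primes above `p`;
* Iwasawa's conjecture `μ = 0` holds for `p` and `K` if and only if it holds for `p` and `A`.

If `A / ℚ` is abelian (for instance `A = k`) then `μ = 0` for `A` and all `p` by the theorem of Ferrero and Washington,
and `Good p A K` implies `μ = 0` for `K` and `p`.

**Theorem.** The lower density of the primes `p` with `Good p A K` is at least `φ(n)² / (n² [A : ℚ])`, and at least
`φ(n) / (n [A : ℚ])` if `K / ℚ` is Galois. In particular, if `K / k` is cyclic of degree `n`, then `μ = 0` for `K` and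
all primes `p` of a set of lower density at least `φ(n)² / (2 n²)`. If moreover the conjugate field `K'` of `K` over the
other embedding of `k` satisfies `K ∩ K' = k` (for `k` imaginary, `K'` is the complex conjugate of `K`), the lower
density is at least `φ(n) (φ(n) + n) / (2 n²)`; if `n = ℓ` is a prime and `K / ℚ` is not Galois this is the case,
and the bound is `(1 - 1 / ℓ) (1 - 1 / (2 ℓ))`. For instance `μ = 0` for at least three eighths of the primes for
each quartic field with a quadratic subfield which is not Galois over `ℚ`.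

**Proof.** Let `M` be the Galois closure of `K`, and let `g ∈ Gal(M / ℚ)` be such that any two embeddings of `K` in `M`
which agree on `A` differ by a power of `g`. By the transfer theorem (hand-in MP_d0239a_nt.FrobeniusTransfer) almost all
primes `p` with Frobenius element `g` satisfy `Good p A K`. An element `g` of `Gal(M / A)` has this property if its
restrictions to `K` and to the conjugate `K'` generate `Gal(K / A)` and `Gal(K' / A)`, and for `A = k` also each
`g ∉ Gal(M / k)` has it for which the restriction of `g²` to `K` generates `Gal(K / k)`. It remains to count these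
elements: two surjective homomorphisms of a finite group onto a cyclic group of order `n` map at least
`φ(n)² / n²` of its elements to generators, and if `K ∩ K' = k` the restrictions to `K` and `K'` are independent. Then
the theorem of Chebotarev is applied.
-/

set_option autoImplicit false

namespace Pool.Agent.Results.MP_b78433_nt.CyclicExtensions

open NumberField

/-- `E` is the `n`-th layer of the cyclotomic `ℤ_p`-extension of `ℚ`. -/
def IsLayer (p n : ℕ) (E : IntermediateField ℚ ℂ) : Prop :=
  E ≤ IntermediateField.adjoin ℚ {z : ℂ | z ^ (p ^ (n + 2)) = 1} ∧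
    Module.finrank ℚ E = p ^ n ∧ ∀ x ∈ E, starRingEnd ℂ x = x

/-- The subgroup of the class group of `K` generated by the classes of the primes above `p`. -/
noncomputable def ClassesAbove (p : ℕ) (K : Type) [Field K] [NumberField K] : Subgroup (ClassGroup (𝓞 K)) :=
  Subgroup.closure {c : ClassGroup (𝓞 K) | ∃ I : nonZeroDivisors (Ideal (𝓞 K)),
    (I : Ideal (𝓞 K)).IsPrime ∧ ((p : 𝓞 K)) ∈ (I : Ideal (𝓞 K)) ∧ ClassGroup.mk0 I = c}

/-- The `p`-primary parts of the class groups of `K` and `L` are isomorphic. -/
def SamePart (p : ℕ) (K L : Type) [Field K] [NumberField K] [Field L] [NumberField L] : Prop :=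
  Nonempty (CommGroup.primaryComponent (ClassGroup (𝓞 K)) p ≃*
    CommGroup.primaryComponent (ClassGroup (𝓞 L)) p)

/-- The `p`-primary parts of the class groups of `K` and `L` modulo the classes of the primes above
`p` are isomorphic. -/
def SamePartMod (p : ℕ) (K L : Type) [Field K] [NumberField K] [Field L] [NumberField L] : Prop :=
  Nonempty (CommGroup.primaryComponent (ClassGroup (𝓞 K) ⧸ ClassesAbove p K) p ≃*
    CommGroup.primaryComponent (ClassGroup (𝓞 L) ⧸ ClassesAbove p L) p)

/-- The `p`-parts of the class groups of `K E` and `A E` are isomorphic for all layers `E` of the cyclotomic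
`ℤ_p`-extension of `ℚ`, and so are those of the class groups modulo the classes of the primes above `p`. -/
def SameTower (p : ℕ) (A K : IntermediateField ℚ ℂ) : Prop :=
  ∀ (n : ℕ) (E : IntermediateField ℚ ℂ), IsLayer p n E →
    ∀ [NumberField ↥(A ⊔ E)] [NumberField ↥(K ⊔ E)],
      SamePart p ↥(K ⊔ E) ↥(A ⊔ E) ∧ SamePartMod p ↥(K ⊔ E) ↥(A ⊔ E)

/-- The number of the elements of order dividing `p` of the class group of `K` modulo the classes of
the primes above `p`. -/
noncomputable def rk (p : ℕ) (K : Type) [Field K] [NumberField K] : ℕ :=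
  Nat.card {g : ClassGroup (𝓞 K) ⧸ ClassesAbove p K // g ^ p = 1}

/-- Iwasawa's conjecture `μ = 0` for `p` and `F` (the number of the elements of order dividing `p` of the class
groups, modulo the classes of the primes above `p`, is bounded in the cyclotomic tower), as in the frozen statement
S18549. -/
def MuZero (p : ℕ) (F : IntermediateField ℚ ℂ) : Prop :=
  ∃ C : ℕ, ∀ (n : ℕ) (E : IntermediateField ℚ ℂ), IsLayer p n E →
    ∀ [NumberField ↥(F ⊔ E)], rk p ↥(F ⊔ E) ≤ C

/-- The class groups of the layers of `A` and `K` have the same `p`-parts, and `μ = 0` for `K` if and only if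
`μ = 0` for `A`. -/
def Good (p : ℕ) (A K : IntermediateField ℚ ℂ) : Prop :=
  SameTower p A K ∧ (MuZero p K ↔ MuZero p A)

/-- `K / A` is cyclic with the generator `s` of its group: `s` fixes the elements of `A`, and all embeddings of `K` in
the complex numbers which are the identity on `A` are powers of `s`. -/
def IsGen (A K : IntermediateField ℚ ℂ) (s : K ≃ₐ[ℚ] K) : Prop :=
  (∀ x : K, (x : ℂ) ∈ A → s x = x) ∧
    ∀ i : K →ₐ[ℚ] ℂ, (∀ x : K, (x : ℂ) ∈ A → i x = x) → ∃ n : ℕ, ∀ x, i x = ((s ^ n) x : ℂ)

/-- `K / k` is Galois: the embeddings of `K` in the complex numbers which are the identity on `k` map `K` onto `K`. -/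
def GaloisOver (k K : IntermediateField ℚ ℂ) : Prop :=
  ∀ i : K →ₐ[ℚ] ℂ, (∀ x : K, (x : ℂ) ∈ k → i x = x) → i.fieldRange = K

/-- `K ∩ i(K) ⊆ k` for the embeddings `i` of `K` which are not the identity on `k`. -/
def Indep (k K : IntermediateField ℚ ℂ) : Prop :=
  ∀ i : K →ₐ[ℚ] ℂ, (∃ x : K, (x : ℂ) ∈ k ∧ i x ≠ x) → ∀ y : ℂ, y ∈ K → y ∈ i.fieldRange → y ∈ k

/-- The lower density of the primes with the property `P` (in the set of all primes) is at least `c`. -/
def LowerDensityAtLeast (c : ℝ) (P : ℕ → Prop) : Prop :=
  ∀ ε : ℝ, 0 < ε → ∃ N₀ : ℕ, ∀ N : ℕ, N₀ ≤ N →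
    (c - ε) * (Nat.primeCounting N : ℝ) ≤ ({p : ℕ | p.Prime ∧ p ≤ N ∧ P p}.ncard : ℝ)

/-- The theorem. -/
theorem result (k K : IntermediateField ℚ ℂ) [FiniteDimensional ℚ K] (hk : Module.finrank ℚ k = 2) (hkK : k ≤ K) :
    -- `K / k` Galois (for instance abelian), `K / A` cyclic of degree `n`, `A / ℚ` Galois (for instance abelian)
    (GaloisOver k K → ∀ (A : IntermediateField ℚ ℂ) (s : K ≃ₐ[ℚ] K), k ≤ A → A ≤ K → Normal ℚ A → IsGen A K s →
      ∀ n : ℕ, n = orderOf s →
      LowerDensityAtLeast ((n.totient : ℝ) ^ 2 / ((n : ℝ) ^ 2 * Module.finrank ℚ A)) (fun p => Good p A K) ∧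
      (Normal ℚ K →
        LowerDensityAtLeast ((n.totient : ℝ) / ((n : ℝ) * Module.finrank ℚ A)) (fun p => Good p A K))) ∧
    -- `K / k` cyclic of degree `n`
    (∀ s : K ≃ₐ[ℚ] K, IsGen k K s → ∀ n : ℕ, n = orderOf s →
      LowerDensityAtLeast ((n.totient : ℝ) ^ 2 / (2 * (n : ℝ) ^ 2)) (fun p => Good p k K) ∧
      (Indep k K →
        LowerDensityAtLeast ((n.totient : ℝ) * (n.totient + n) / (2 * (n : ℝ) ^ 2)) (fun p => Good p k K)) ∧
      (n.Prime → ¬ Normal ℚ K →
        LowerDensityAtLeast ((1 - 1 / (n : ℝ)) * (1 - 1 / (2 * (n : ℝ)))) (fun p => Good p k K))) := by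
  refine ⟨fun hG A s hkA hAK hA hs n hn => ⟨?_, fun hK => ?_⟩, fun s hs n hn => ⟨?_, fun hI => ?_, fun hp hK => ?_⟩⟩
  · subst hn
    exact Pool.Agent.H512.CY.dens_lower hkA hAK hk hG hs
  · subst hn
    exact Pool.Agent.H512.CY.dens_gal hAK hs
  · subst hn
    have : Normal ℚ k := Pool.Agent.H512.CY.normal_quadratic hk
    have h := Pool.Agent.H512.CY.dens_lower le_rfl hkK hk (Pool.Agent.H512.CY.galoisOver_of_isGen hs) hs
    rw [hk, Nat.cast_ofNat, mul_comm ((orderOf s : ℝ) ^ 2) 2] at h
    exact h
  · subst hn
    exact Pool.Agent.H512.CY.dens_indep hkK hk hs hI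
  · subst hn
    have h := Pool.Agent.H512.CY.dens_indep hkK hk hs (Pool.Agent.H512.CY.indep_of_prime hkK hk hs hp hK)
    have hpos : (0 : ℝ) < orderOf s := by exact_mod_cast hp.pos
    have e : ((orderOf s).totient : ℝ) = (orderOf s : ℝ) - 1 := by
      rw [Nat.totient_prime hp, Nat.cast_sub hp.one_lt.le, Nat.cast_one]
    rw [e] at h
    have e2 : ((orderOf s : ℝ) - 1) * ((orderOf s : ℝ) - 1 + orderOf s) / (2 * (orderOf s : ℝ) ^ 2) =
        (1 - 1 / (orderOf s : ℝ)) * (1 - 1 / (2 * (orderOf s : ℝ))) := by
      field_simp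
      ring
    rw [e2] at h
    exact h

end Pool.Agent.Results.MP_b78433_nt.CyclicExtensions
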